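import Pool.Agent.helper60.EPT.SpecS

set_option autoImplicit false

namespace Pool.Agent.EPT

open D

theorem DAB_sb (a b : D) : sb a b ↔ cs a ⊆ cs b := by
  unfold sb cs
  rw [Finset.subset_iff]
  simp only [List.mem_toFinset]

theorem DAB_fs (F : D) (s : Finset D) : s ∈ fs F ↔ ∃ c ∈ F.toList, cs c = s := by
  unfold fs
  rw [List.mem_toFinset, List.mem_map]

theorem DAB_fold (L : List D) : ∀ acc : List D, (acc.map cs).Nodup →
    ((L.foldl (fun acc c => if ∃ c' ∈ acc, sb c c' ∧ sb c' c then acc else c :: acc) acc).map cs).Nodup ∧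
    (∀ c ∈ L.foldl (fun acc c => if ∃ c' ∈ acc, sb c c' ∧ sb c' c then acc else c :: acc) acc,
      c ∈ acc ∨ c ∈ L) ∧
    ∀ s : Finset D, s ∈ (L.foldl (fun acc c => if ∃ c' ∈ acc, sb c c' ∧ sb c' c then acc else c :: acc)
      acc).map cs ↔ s ∈ acc.map cs ∨ s ∈ L.map cs := by
  induction L with
  | nil =>
    intro acc h
    refine ⟨h, fun c hc => Or.inl hc, fun s => ?_⟩
    simp
  | cons c L ih =>
    intro acc h
    rw [List.foldl_cons]
    by_cases hc : ∃ c' ∈ acc, sb c c' ∧ sb c' c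
    · rw [if_pos hc]
      obtain ⟨h1, h2, h3⟩ := ih acc h
      refine ⟨h1, fun d hd => ?_, fun s => ?_⟩
      · rcases h2 d hd with h4 | h4
        · exact Or.inl h4
        · exact Or.inr (List.mem_cons_of_mem _ h4)
      · rw [h3 s, List.map_cons, List.mem_cons]
        constructor
        · rintro (h4 | h4)
          · exact Or.inl h4
          · exact Or.inr (Or.inr h4)
        · rintro (h4 | h4 | h4)
          · exact Or.inl h4
          · obtain ⟨c', h5, h6, h7⟩ := hc
            left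
            rw [List.mem_map]
            refine ⟨c', h5, ?_⟩
            rw [h4]
            exact ((DAB_sb c' c).1 h7).antisymm ((DAB_sb c c').1 h6)
          · exact Or.inr h4
    · rw [if_neg hc]
      have hn : ((c :: acc).map cs).Nodup := by
        rw [List.map_cons, List.nodup_cons]
        refine ⟨fun h4 => hc ?_, h⟩
        rw [List.mem_map] at h4
        obtain ⟨c', h5, h6⟩ := h4
        exact ⟨c', h5, (DAB_sb c c').2 h6.symm.subset, (DAB_sb c' c).2 h6.subset⟩
      obtain ⟨h1, h2, h3⟩ := ih (c :: acc) hn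
      refine ⟨h1, fun d hd => ?_, fun s => ?_⟩
      · rcases h2 d hd with h4 | h4
        · rcases List.mem_cons.1 h4 with h5 | h5
          · rw [h5]
            exact Or.inr List.mem_cons_self
          · exact Or.inl h5
        · exact Or.inr (List.mem_cons_of_mem _ h4)
      · rw [h3 s, List.map_cons, List.map_cons, List.mem_cons, List.mem_cons]
        tauto

theorem DAB_dq (L : List D) : ((dq L).map cs).Nodup ∧ (∀ c ∈ dq L, c ∈ L) ∧
    ∀ s : Finset D, s ∈ (dq L).map cs ↔ s ∈ L.map cs := by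
  obtain ⟨h1, h2, h3⟩ := DAB_fold L [] List.nodup_nil
  refine ⟨h1, fun c hc => ?_, fun s => ?_⟩
  · rcases h2 c hc with h4 | h4
    · exact absurd h4 List.not_mem_nil
    · exact h4
  · refine (h3 s).trans ⟨?_, fun h => Or.inr h⟩
    rintro (h4 | h4)
    · exact absurd h4 List.not_mem_nil
    · exact h4

theorem DAB_red (F : D) : fs (rdD F) = red (fs F) := by
  ext s
  rw [DAB_fs]
  unfold rdD
  rw [toList_ofList]
  have h0 : (∃ c ∈ dq (F.toList.filter fun c => ∀ c' ∈ F.toList, sb c' c → sb c c'), cs c = s) ↔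
      ∃ c ∈ F.toList.filter fun c => ∀ c' ∈ F.toList, sb c' c → sb c c', cs c = s := by
    have h1 := (DAB_dq (F.toList.filter fun c => ∀ c' ∈ F.toList, sb c' c → sb c c')).2.2 s
    rw [List.mem_map, List.mem_map] at h1
    exact h1
  rw [h0]
  unfold red
  rw [Finset.mem_filter]
  constructor
  · rintro ⟨c, hc, rfl⟩
    rw [List.mem_filter, decide_eq_true_eq] at hc
    refine ⟨(DAB_fs F _).2 ⟨c, hc.1, rfl⟩, fun C' hC' hsub => ?_⟩
    obtain ⟨c', h1, rfl⟩ := (DAB_fs F C').1 hC'
    exact hsub.antisymm ((DAB_sb c c').1 (hc.2 c' h1 ((DAB_sb c' c).2 hsub)))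
  · rintro ⟨hs, hmin⟩
    obtain ⟨c, hc, rfl⟩ := (DAB_fs F s).1 hs
    refine ⟨c, ?_, rfl⟩
    rw [List.mem_filter, decide_eq_true_eq]
    refine ⟨hc, fun c' hc' hsub => (DAB_sb c c').2 ?_⟩
    exact (hmin (cs c') ((DAB_fs F _).2 ⟨c', hc', rfl⟩) ((DAB_sb c' c).1 hsub)).symm.subset

theorem DAB_flw_mem (F : D) (j : ℕ) (H c : D) :
    c ∈ (flw F j H).toList ↔ c ∈ F.toList ∧ c.toList.length = j ∧ cs H ⊆ cs c := by
  unfold flw
  rw [toList_ofList, List.mem_filter, decide_eq_true_eq, DAB_sb]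

theorem DAB_len (F : D) (hF : Nd F) (c : D) (hc : c ∈ F.toList) :
    (cs c).card = c.toList.length := List.toFinset_card_of_nodup (hF.2 c hc)

theorem DAB_filter (F : D) (j : ℕ) (H : D) (hF : Nd F) :
    (fs F).filter (fun C => C.card = j ∧ cs H ⊆ C) = ((flw F j H).toList.map cs).toFinset := by
  ext s
  rw [Finset.mem_filter, List.mem_toFinset, List.mem_map]
  constructor
  · rintro ⟨h1, h2, h3⟩
    obtain ⟨c, hc, rfl⟩ := (DAB_fs F s).1 h1
    refine ⟨c, (DAB_flw_mem F j H c).2 ⟨hc, ?_, h3⟩, rfl⟩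
    rw [← DAB_len F hF c hc]
    exact h2
  · rintro ⟨c, hc, rfl⟩
    obtain ⟨h1, h2, h3⟩ := (DAB_flw_mem F j H c).1 hc
    refine ⟨(DAB_fs F _).2 ⟨c, h1, rfl⟩, ?_, h3⟩
    rw [DAB_len F hF c h1]
    exact h2

theorem DAB_deg (F : D) (j : ℕ) (H : D) (hF : Nd F) :
    (flw F j H).toList.length = deg (fs F) j (cs H) := by
  unfold deg
  rw [DAB_filter F j H hF]
  have hn : ((flw F j H).toList.map cs).Nodup := by
    unfold flw
    rw [toList_ofList]
    exact hF.1.sublist (List.filter_sublist.map cs)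
  rw [List.toFinset_card_of_nodup hn, List.length_map]

theorem DAB_cs_filter (c H : D) :
    cs (ofList (c.toList.filter fun l => l ∉ H.toList)) = cs c \ cs H := by
  ext l
  unfold cs
  rw [toList_ofList, Finset.mem_sdiff, List.mem_toFinset, List.mem_toFinset, List.mem_toFinset,
    List.mem_filter, decide_eq_true_eq]

theorem DAB_pet (F : D) (j : ℕ) (H : D) (hF : Nd F) :
    fs (ofList ((ptD F j H).toList ++ F.toList)) = fs F ∪ pet (fs F) j (cs H) ∧
    ∀ c ∈ (ofList ((ptD F j H).toList ++ F.toList)).toList, c.toList.Nodup := by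
  constructor
  · ext s
    rw [DAB_fs, toList_ofList, Finset.mem_union, DAB_fs]
    unfold pet
    rw [DAB_filter F j H hF, Finset.mem_image]
    constructor
    · rintro ⟨c, hc, rfl⟩
      rcases List.mem_append.1 hc with h1 | h1
      · right
        unfold ptD at h1
        rw [toList_ofList, List.mem_map] at h1
        obtain ⟨d, hd, rfl⟩ := h1
        refine ⟨cs d, ?_, (DAB_cs_filter d H).symm⟩
        rw [List.mem_toFinset, List.mem_map]
        exact ⟨d, hd, rfl⟩
      · exact Or.inl ⟨c, h1, rfl⟩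
    · rintro (⟨c, hc, rfl⟩ | ⟨C, hC, rfl⟩)
      · exact ⟨c, List.mem_append_right _ hc, rfl⟩
      · rw [List.mem_toFinset, List.mem_map] at hC
        obtain ⟨d, hd, rfl⟩ := hC
        refine ⟨ofList (d.toList.filter fun l => l ∉ H.toList), List.mem_append_left _ ?_,
          DAB_cs_filter d H⟩
        unfold ptD
        rw [toList_ofList, List.mem_map]
        exact ⟨d, hd, rfl⟩
  · intro c hc
    rw [toList_ofList] at hc
    rcases List.mem_append.1 hc with h1 | h1
    · unfold ptD at h1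
      rw [toList_ofList, List.mem_map] at h1
      obtain ⟨d, hd, rfl⟩ := h1
      rw [toList_ofList]
      exact (hF.2 d ((DAB_flw_mem F j H d).1 hd).1).filter _
    · exact hF.2 c h1

theorem DAB : DAB_stmt := by
  refine ⟨fun F hF => ⟨⟨?_, fun c hc => ?_⟩, DAB_red F⟩, fun F j H hF => DAB_deg F j H hF,
    fun F j H hF => DAB_pet F j H hF, fun F H => ?_⟩
  · unfold rdD
    rw [toList_ofList]
    exact (DAB_dq _).1
  · unfold rdD at hc
    rw [toList_ofList] at hc
    have h1 := (DAB_dq _).2.1 c hc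
    exact hF c (List.mem_of_mem_filter h1)
  · ext s
    rw [Finset.mem_union, Finset.mem_singleton, DAB_fs, DAB_fs, toList_cons]
    simp only [List.mem_cons]
    constructor
    · rintro ⟨c, rfl | hc, rfl⟩
      · exact Or.inr rfl
      · exact Or.inl ⟨c, hc, rfl⟩
    · rintro (⟨c, hc, rfl⟩ | rfl)
      · exact ⟨c, Or.inr hc, rfl⟩
      · exact ⟨H, Or.inl rfl, rfl⟩

end Pool.Agent.EPT
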